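import Pool.Agent.H84.GL.Basic

/-!
gl_modules CA2 (MP_57ddd5_pr): cubic bounds for `fl` around the characteristic parameter.
-/

namespace Pool.Agent.H4.GL

open Pool.Agent.H84.GL Pool.Agent.H99.NS

/-- facts on the characteristic parameter -/
theorem AA_facts {q x y : ℝ} (hq : 0 < q) (hq1 : q < 1) (hx : 0 < x) (hy : 0 < y)
    (hxy : x ≤ 3 * y) (hyx : y ≤ 3 * x) :
    q * (1 - q) / 3 ≤ AA q x y - q ∧ q * (1 - q) / 3 ≤ 1 - AA q x y := by
  have hu : 0 < √x := Real.sqrt_pos.2 hx
  have hv : 0 < √(q * y) := Real.sqrt_pos.2 (mul_pos hq hy)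
  have hu2 : √x ^ 2 = x := Real.sq_sqrt hx.le
  have hv2 : √(q * y) ^ 2 = q * y := Real.sq_sqrt (mul_pos hq hy).le
  unfold AA
  generalize √x = u at *
  generalize √(q * y) = v at *
  have huv : 0 < u + v := by linarith
  have h1 : v ≤ 2 * u := by
    have : v ^ 2 ≤ (2 * u) ^ 2 := by nlinarith
    exact (pow_le_pow_iff_left₀ hv.le (by linarith) two_ne_zero).1 this
  have h2 : q * u ≤ 2 * v := by
    have : (q * u) ^ 2 ≤ (2 * v) ^ 2 := by
      have e1 : (q * u) ^ 2 = q ^ 2 * x := by rw [mul_pow, hu2]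
      have e2 : (2 * v) ^ 2 = 4 * (q * y) := by rw [mul_pow, hv2]; norm_num
      rw [e1, e2]
      have e3 : q ^ 2 * x ≤ q * x := by
        have : q ^ 2 ≤ q := by nlinarith
        nlinarith
      nlinarith
    exact (pow_le_pow_iff_left₀ (mul_pos hq hu).le (by linarith) two_ne_zero).1 this
  constructor
  · have e : (q * u + v) / (u + v) - q = v * (1 - q) / (u + v) := by
      field_simp
      ring
    rw [e, le_div_iff₀ huv]
    have h3 : q * (u + v) ≤ 3 * v := by nlinarith
    have h4 : 0 < 1 - q := by linarith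
    nlinarith [mul_le_mul_of_nonneg_left h3 h4.le]
  · have e : 1 - (q * u + v) / (u + v) = u * (1 - q) / (u + v) := by
      field_simp
      ring
    rw [e, le_div_iff₀ huv]
    have h3 : q * (u + v) ≤ 3 * u := by nlinarith
    have h4 : 0 < 1 - q := by linarith
    nlinarith [mul_le_mul_of_nonneg_left h3 h4.le]

theorem exp_sub_one_lower {s : ℝ} (hs : |s| ≤ 1 / 2) : s ^ 2 / 4 ≤ (Real.exp s - 1) ^ 2 := by
  rcases le_or_gt 0 s with h | h
  · have h1 := Real.add_one_le_exp s
    nlinarith
  · have h1 := Real.abs_exp_sub_one_sub_id_le (x := s) (by linarith)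
    have h2 := (abs_le.1 h1).2
    rw [abs_of_neg h] at hs
    have h3 : Real.exp s - 1 ≤ s / 2 := by nlinarith
    nlinarith

theorem exp_sub_one_upper {s : ℝ} (hs : |s| ≤ 1 / 2) : (Real.exp s - 1) ^ 2 ≤ 4 * s ^ 2 := by
  have h1 := Real.abs_exp_sub_one_le (x := s) (by linarith)
  have h2 := abs_nonneg (Real.exp s - 1)
  have h3 : |Real.exp s - 1| ^ 2 ≤ (2 * |s|) ^ 2 := pow_le_pow_left₀ h2 h1 2
  rw [sq_abs, mul_pow, sq_abs] at h3
  linarith

theorem hasDerivAt_fl {q x y al s : ℝ} (hal : 0 < al) (h1 : al * Real.exp s < 1)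
    (h2 : q < al * Real.exp s) :
    HasDerivAt (fl q x y al) (x * (al * Real.exp s / (1 - al * Real.exp s)) +
      y * (q / (al * Real.exp s - q))) s := by
  have hb : 0 < al * Real.exp s := mul_pos hal (Real.exp_pos s)
  have d1 : HasDerivAt (fun s => 1 - al * Real.exp s) (-(al * Real.exp s)) s := by
    simpa using ((Real.hasDerivAt_exp s).const_mul al).const_sub 1
  have d2 : HasDerivAt (fun s => 1 - q / al * Real.exp (-s)) (q / al * Real.exp (-s)) s := by
    have h3 : HasDerivAt (fun s : ℝ => Real.exp (-s)) (Real.exp (-s) * (-1)) s :=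
      (hasDerivAt_neg s).exp
    have h4 := (h3.const_mul (q / al)).const_sub 1
    exact h4.congr_deriv (by ring)
  have e : q / al * Real.exp (-s) = q / (al * Real.exp s) := by
    rw [Real.exp_neg]
    field_simp
  have n1 : 1 - al * Real.exp s ≠ 0 := by linarith
  have n2 : 1 - q / al * Real.exp (-s) ≠ 0 := by
    rw [e]
    have : q / (al * Real.exp s) < 1 := (div_lt_one hb).2 h2
    linarith
  have d3 := (d1.log n1).const_mul (-x)
  have d4 := (d2.log n2).const_mul y
  have d5 : HasDerivAt (fl q x y al) _ s := d3.add d4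
  refine d5.congr_deriv ?_
  rw [e]
  have n3 : al * Real.exp s - q ≠ 0 := by linarith
  have n4 : 1 - q / (al * Real.exp s) ≠ 0 := by rw [← e]; exact n2
  have e2 : q / (al * Real.exp s) / (1 - q / (al * Real.exp s)) = q / (al * Real.exp s - q) := by
    have hb' := hb.ne'
    generalize al * Real.exp s = b at *
    rw [div_div]
    congr 1
    field_simp
  rw [e2]
  ring

/-- **CA2** -/
theorem pf_CA2 (h_CA1 : T_CA1) : T_CA2 := by
  intro q hq hq1
  set d : ℝ := q * (1 - q) / 3 with hd
  have hd0 : 0 < d := by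
    have : 0 < 1 - q := by linarith
    positivity
  have hd1 : d ≤ 1 / 12 := by
    have : q * (1 - q) ≤ 1 / 4 := by nlinarith [sq_nonneg (q - 1 / 2)]
    rw [hd]
    linarith
  have hq1' : 0 < 1 - q := by linarith
  refine ⟨q ^ 3 / 12, 32 / (3 * ((1 - q) * d ^ 2)), d / 16, by positivity, by positivity,
    by positivity, by linarith, ?_⟩
  intro x y hx hy hxy hyx
  obtain ⟨ha1, ha2⟩ := AA_facts hq hq1 hx hy hxy hyx
  rw [← hd] at ha1 ha2
  set al := AA q x y with hal
  have hal0 : 0 < al := by linarith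
  have hal1 : al < 1 := by linarith
  have hbound : ∀ s : ℝ, |s| ≤ 4 * (d / 16) →
      d / 2 ≤ al * Real.exp s - q ∧ d / 2 ≤ 1 - al * Real.exp s := by
    intro s hs
    have h1 := Real.abs_exp_sub_one_le (x := s) (by linarith)
    have h2 : |al * (Real.exp s - 1)| ≤ d / 2 := by
      rw [abs_mul, abs_of_pos hal0]
      have h3 : al * |Real.exp s - 1| ≤ 1 * (2 * |s|) :=
        mul_le_mul hal1.le h1 (abs_nonneg _) zero_le_one
      linarith
    have h4 := abs_le.1 h2
    constructor <;> nlinarith [h4.1, h4.2]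
  have hdom : ∀ s : ℝ, |s| ≤ 4 * (d / 16) → q < al * Real.exp s ∧ al * Real.exp s < 1 := by
    intro s hs
    have := hbound s hs
    constructor <;> linarith [this.1, this.2]
  refine ⟨hdom, ?_⟩
  -- the derivative
  have hder : ∀ s : ℝ, |s| ≤ 4 * (d / 16) →
      HasDerivAt (fl q x y al) (gg q x y + (√x * (al * Real.exp s - q) -
        √(q * y) * (1 - al * Real.exp s)) ^ 2 /
          ((1 - q) * (1 - al * Real.exp s) * (al * Real.exp s - q))) s := by
    intro s hs
    obtain ⟨h1, h2⟩ := hdom s hs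
    have h3 := hasDerivAt_fl (x := x) (y := y) hal0 h2 h1
    have h4 := h_CA1 q x y (al * Real.exp s) hq hq1 hx hy h1 h2
    have h5 : gg q x y + (√x * (al * Real.exp s - q) -
        √(q * y) * (1 - al * Real.exp s)) ^ 2 /
          ((1 - q) * (1 - al * Real.exp s) * (al * Real.exp s - q)) =
        x * (al * Real.exp s / (1 - al * Real.exp s)) + y * (q / (al * Real.exp s - q)) := by
      linarith
    rw [h5]
    exact h3
  have hquot : ∀ s : ℝ, |s| ≤ 4 * (d / 16) →
      3 * (q ^ 3 / 12) * (x + y) * s ^ 2 ≤ (√x * (al * Real.exp s - q) -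
        √(q * y) * (1 - al * Real.exp s)) ^ 2 /
          ((1 - q) * (1 - al * Real.exp s) * (al * Real.exp s - q)) ∧
      (√x * (al * Real.exp s - q) -
        √(q * y) * (1 - al * Real.exp s)) ^ 2 /
          ((1 - q) * (1 - al * Real.exp s) * (al * Real.exp s - q)) ≤
        3 * (32 / (3 * ((1 - q) * d ^ 2))) * (x + y) * s ^ 2 := by
    intro s hs
    obtain ⟨h1, h2⟩ := hbound s hs
    have hu : 0 < √x := Real.sqrt_pos.2 hx
    have hv : 0 < √(q * y) := Real.sqrt_pos.2 (mul_pos hq hy)
    have hu2 : √x ^ 2 = x := Real.sq_sqrt hx.le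
    have hv2 : √(q * y) ^ 2 = q * y := Real.sq_sqrt (mul_pos hq hy).le
    have hale : al * (√x + √(q * y)) = q * √x + √(q * y) := by
      rw [hal, AA]
      have : √x + √(q * y) ≠ 0 := by linarith
      field_simp
    have hs12 : |s| ≤ 1 / 2 := by linarith
    have k1 := exp_sub_one_lower hs12
    have k2 := exp_sub_one_upper hs12
    have hb1 : al * Real.exp s < 1 := by linarith
    have hbq : q < al * Real.exp s := by linarith
    generalize √x = u at *
    generalize √(q * y) = v at *
    have hnum : (u * (al * Real.exp s - q) - v * (1 - al * Real.exp s)) ^ 2 =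
        (u + v) ^ 2 * (al ^ 2 * (Real.exp s - 1) ^ 2) := by
      have : u * (al * Real.exp s - q) - v * (1 - al * Real.exp s) =
          (u + v) * (al * (Real.exp s - 1)) := by
        linear_combination hale
      rw [this]
      ring
    rw [hnum]
    generalize Real.exp s = E at *
    have hden1 : (1 - q) * (d ^ 2 / 4) ≤ (1 - q) * (1 - al * E) * (al * E - q) := by
      rw [mul_assoc]
      refine mul_le_mul_of_nonneg_left ?_ hq1'.le
      nlinarith
    have hden2 : (1 - q) * (1 - al * E) * (al * E - q) ≤ 1 := by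
      have m1 : (1 - q) * (1 - al * E) ≤ 1 := by nlinarith
      have m2 : 0 ≤ (1 - q) * (1 - al * E) := mul_nonneg hq1'.le (by linarith)
      nlinarith
    have hden0 : 0 < (1 - q) * (1 - al * E) * (al * E - q) := by
      have : 0 < (1 - q) * (d ^ 2 / 4) := by positivity
      linarith
    have huv1 : q * (x + y) ≤ (u + v) ^ 2 := by
      have : (u + v) ^ 2 = x + q * y + 2 * (u * v) := by
        rw [← hu2, ← hv2]; ring
      rw [this]
      nlinarith [mul_pos hu hv]
    have huv2 : (u + v) ^ 2 ≤ 2 * (x + y) := by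
      have : (u + v) ^ 2 ≤ 2 * (u ^ 2 + v ^ 2) := by nlinarith [sq_nonneg (u - v)]
      rw [hu2, hv2] at this
      nlinarith
    have hal2 : q ^ 2 ≤ al ^ 2 := by nlinarith
    have hal3 : al ^ 2 ≤ 1 := by nlinarith
    have hE0 : 0 ≤ (E - 1) ^ 2 := sq_nonneg _
    have hs0 : 0 ≤ s ^ 2 := sq_nonneg _
    have hxy0 : 0 < x + y := by linarith
    constructor
    · rw [le_div_iff₀ hden0]
      have m1 : q ^ 2 * (s ^ 2 / 4) ≤ al ^ 2 * (E - 1) ^ 2 :=
        mul_le_mul hal2 k1 (by positivity) (by positivity)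
      have m2 : q * (x + y) * (q ^ 2 * (s ^ 2 / 4)) ≤ (u + v) ^ 2 * (al ^ 2 * (E - 1) ^ 2) :=
        mul_le_mul huv1 m1 (by positivity) (by positivity)
      have m3 : 3 * (q ^ 3 / 12) * (x + y) * s ^ 2 * ((1 - q) * (1 - al * E) * (al * E - q)) ≤
          3 * (q ^ 3 / 12) * (x + y) * s ^ 2 * 1 :=
        mul_le_mul_of_nonneg_left hden2 (by positivity)
      calc _ ≤ _ := m3
        _ = q * (x + y) * (q ^ 2 * (s ^ 2 / 4)) := by ring
        _ ≤ _ := m2
    · rw [div_le_iff₀ hden0]
      have m1 : al ^ 2 * (E - 1) ^ 2 ≤ 1 * (4 * s ^ 2) :=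
        mul_le_mul hal3 k2 hE0 zero_le_one
      have m2 : (u + v) ^ 2 * (al ^ 2 * (E - 1) ^ 2) ≤ 2 * (x + y) * (1 * (4 * s ^ 2)) :=
        mul_le_mul huv2 m1 (by positivity) (by positivity)
      have m3 : 3 * (32 / (3 * ((1 - q) * d ^ 2))) * (x + y) * s ^ 2 * ((1 - q) * (d ^ 2 / 4)) ≤
          3 * (32 / (3 * ((1 - q) * d ^ 2))) * (x + y) * s ^ 2 *
            ((1 - q) * (1 - al * E) * (al * E - q)) :=
        mul_le_mul_of_nonneg_left hden1 (by positivity)
      have m4 : 3 * (32 / (3 * ((1 - q) * d ^ 2))) * (x + y) * s ^ 2 * ((1 - q) * (d ^ 2 / 4)) =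
          2 * (x + y) * (1 * (4 * s ^ 2)) := by
        field_simp
        ring
      linarith
  -- integration
  have hint : ∀ s ∈ Set.Icc (-(4 * (d / 16))) (4 * (d / 16)), |s| ≤ 4 * (d / 16) := by
    intro s hs
    rw [abs_le]
    exact ⟨hs.1, hs.2⟩
  have hint' : ∀ s ∈ interior (Set.Icc (-(4 * (d / 16))) (4 * (d / 16))), |s| ≤ 4 * (d / 16) :=
    fun s hs => hint s (interior_subset hs)
  intro s t hs hst ht
  have hsI : s ∈ Set.Icc (-(4 * (d / 16))) (4 * (d / 16)) := ⟨hs, by linarith⟩
  have htI : t ∈ Set.Icc (-(4 * (d / 16))) (4 * (d / 16)) := ⟨by linarith, ht⟩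
  have hcub : ∀ (k r : ℝ), HasDerivAt (fun s : ℝ => gg q x y * s + k * (x + y) * s ^ 3)
      (gg q x y + 3 * k * (x + y) * r ^ 2) r := by
    intro k r
    have h1 := (hasDerivAt_id r).const_mul (gg q x y)
    have h2 := (hasDerivAt_pow 3 r).const_mul (k * (x + y))
    have h3 : HasDerivAt (fun s : ℝ => gg q x y * s + k * (x + y) * s ^ 3) _ r := h1.add h2
    refine h3.congr_deriv ?_
    push_cast
    ring
  constructor
  · have hmono : MonotoneOn (fun s => fl q x y al s - (gg q x y * s + q ^ 3 / 12 * (x + y) * s ^ 3))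
        (Set.Icc (-(4 * (d / 16))) (4 * (d / 16))) := by
      refine monotoneOn_of_hasDerivWithinAt_nonneg (convex_Icc _ _) ?_
        (fun r hr => ((hder r (hint' r hr)).sub (hcub (q ^ 3 / 12) r)).hasDerivWithinAt) ?_
      · intro r hr
        exact ((hder r (hint r hr)).sub (hcub (q ^ 3 / 12) r)).continuousAt.continuousWithinAt
      · intro r hr
        have := (hquot r (hint' r hr)).1
        linarith
    have := hmono hsI htI hst
    simp only at this
    linarith
  · have hanti : MonotoneOn (fun s => (gg q x y * s +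
        32 / (3 * ((1 - q) * d ^ 2)) * (x + y) * s ^ 3) - fl q x y al s)
        (Set.Icc (-(4 * (d / 16))) (4 * (d / 16))) := by
      refine monotoneOn_of_hasDerivWithinAt_nonneg (convex_Icc _ _) ?_
        (fun r hr => ((hcub (32 / (3 * ((1 - q) * d ^ 2))) r).sub
          (hder r (hint' r hr))).hasDerivWithinAt) ?_
      · intro r hr
        exact ((hcub (32 / (3 * ((1 - q) * d ^ 2))) r).sub
          (hder r (hint r hr))).continuousAt.continuousWithinAt
      · intro r hr
        have := (hquot r (hint' r hr)).2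
        linarith
    have := hanti hsI htI hst
    simp only at this
    linarith

end Pool.Agent.H4.GL
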