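import Pool.Agent.H84.GL.Basic

/-!
gl_modules INC (MP_57ddd5_pr): control of the horizontal increments of the bulk model by a
stationary model.
-/

open MeasureTheory ProbabilityTheory
open scoped ENNReal

namespace Pool.Agent.H4.GL

open Pool.Agent.H84.GL Pool.Agent.H99.NS

/-- the walk event, with the first step of the boundary separated -/
def evC (k0 : ℕ) (y : ℝ) : Set (ℕ × ((ℕ → ℕ) × (ℕ → ℕ))) :=
  {p | ∃ i ≤ k0, y - (p.1 : ℝ) ≤ ∑ m ∈ Finset.range i, ((p.2.1 m : ℝ) - (p.2.2 m : ℝ))}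

theorem measurable_natcast {Ω : Type*} [MeasurableSpace Ω] {f : Ω → ℕ} (hf : Measurable f) :
    Measurable fun ω => (f ω : ℝ) := (measurable_nat fun n : ℕ => (n : ℝ)).comp hf

theorem measurableSet_evC (k0 : ℕ) (y : ℝ) : MeasurableSet (evC k0 y) := by
  have : evC k0 y = ⋃ i ∈ Finset.range (k0 + 1),
      {p : ℕ × ((ℕ → ℕ) × (ℕ → ℕ)) | y - (p.1 : ℝ) ≤
        ∑ m ∈ Finset.range i, ((p.2.1 m : ℝ) - (p.2.2 m : ℝ))} := by
    ext p
    simp only [evC, Set.mem_iUnion, Finset.mem_range, exists_prop, Nat.lt_succ_iff]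
    rfl
  rw [this]
  refine MeasurableSet.biUnion (Finset.range (k0 + 1)).countable_toSet fun i _ => ?_
  refine measurableSet_le ?_ ?_
  · exact measurable_const.sub (measurable_natcast measurable_fst)
  · refine Finset.measurable_sum _ fun m _ => ?_
    exact (measurable_natcast (by fun_prop)).sub (measurable_natcast (by fun_prop))

/-- moment generating function of one step -/
theorem mgf_step (h_GEM : T_GEM) {α : ℝ} (hα0 : 0 ≤ α) (hα1 : α < 1) (s : ℝ)
    (hs : α * Real.exp s < 1) :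
    ∫⁻ k, ex (s * (k : ℝ)) ∂(geo α) = ENNReal.ofReal ((1 - α) / (1 - α * Real.exp s)) := by
  have h := h_GEM α (Real.exp s) hα0 hα1 (Real.exp_pos s).le (by rwa [mul_comm])
  rw [mul_comm (Real.exp s) α] at h
  rw [← h]
  refine lintegral_congr fun k => ?_
  unfold ex
  rw [← Real.exp_nat_mul, mul_comm s]

theorem walk_bound (h_GEM : T_GEM) (h_RWK : T_RWK) {α α' lam ρ y : ℝ} (hα0 : 0 < α) (hα1 : α < 1)
    (hα'0 : 0 < α') (hα'1 : α' < 1) (hl : 0 ≤ lam) (hal : α * Real.exp lam < 1) (hρ : 1 ≤ ρ)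
    (hq : (1 - α) / (1 - α * Real.exp lam) * ((1 - α') / (1 - α' * Real.exp (-lam))) ≤ ρ)
    (k0 : ℕ) :
    ((geo α).prod ((P1 α).prod (P1 α'))) (evC k0 y) ≤
      ENNReal.ofReal (Real.exp (-(lam * y)) * ((1 - α) / (1 - α * Real.exp lam)) * ρ ^ k0) := by
  have hα' : α' * Real.exp (-lam) < 1 := by
    have : Real.exp (-lam) ≤ 1 := Real.exp_le_one_iff.2 (by linarith)
    nlinarith
  have hstep : ∫⁻ x, ∫⁻ z, ex (lam * ((x : ℝ) - (z : ℝ))) ∂(geo α') ∂(geo α) ≤
      ENNReal.ofReal ρ := by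
    have e1 : ∀ x : ℕ, ∫⁻ z, ex (lam * ((x : ℝ) - (z : ℝ))) ∂(geo α') =
        ex (lam * x) * ∫⁻ z : ℕ, ex (-lam * (z : ℝ)) ∂(geo α') := by
      intro x
      rw [← lintegral_const_mul _ (measurable_nat _)]
      refine lintegral_congr fun z => ?_
      rw [← ex_add]
      congr 1
      ring
    simp only [e1]
    rw [lintegral_mul_const _ (measurable_nat _), mgf_step h_GEM hα0.le hα1 lam hal,
      mgf_step h_GEM hα'0.le hα'1 (-lam) hα', ← ENNReal.ofReal_mul]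
    · exact ENNReal.ofReal_le_ofReal hq
    · exact div_nonneg (by linarith) (by linarith)
  have hR := h_RWK α α' (fun x z => (x : ℝ) - (z : ℝ)) lam ρ hl hρ hstep k0
  rw [Measure.prod_apply (measurableSet_evC k0 y)]
  have hin : ∀ i0 : ℕ, ((P1 α).prod (P1 α')) (Prod.mk i0 ⁻¹' evC k0 y) ≤
      ENNReal.ofReal (Real.exp (-(lam * y)) * ρ ^ k0) * ex (lam * (i0 : ℝ)) := by
    intro i0
    refine (hR (y - i0)).trans (le_of_eq ?_)
    unfold ex
    rw [← ENNReal.ofReal_mul (mul_nonneg (Real.exp_pos _).le (pow_nonneg (by linarith) _))]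
    congr 1
    have : Real.exp (-(lam * (y - i0))) = Real.exp (-(lam * y)) * Real.exp (lam * i0) := by
      rw [← Real.exp_add]
      congr 1
      ring
    rw [this]
    ring
  calc ∫⁻ i0, ((P1 α).prod (P1 α')) (Prod.mk i0 ⁻¹' evC k0 y) ∂(geo α)
      ≤ ∫⁻ i0 : ℕ, ENNReal.ofReal (Real.exp (-(lam * y)) * ρ ^ k0) * ex (lam * (i0 : ℝ)) ∂(geo α) :=
        lintegral_mono hin
    _ = ENNReal.ofReal (Real.exp (-(lam * y)) * ρ ^ k0) *
        ENNReal.ofReal ((1 - α) / (1 - α * Real.exp lam)) := by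
        rw [lintegral_const_mul _ (measurable_nat _), mgf_step h_GEM hα0.le hα1 lam hal]
    _ = _ := by
        rw [← ENNReal.ofReal_mul (mul_nonneg (Real.exp_pos _).le (pow_nonneg (by linarith) _))]
        congr 1
        ring

/-- reversal of the first `a + 1` indices -/
def sig (a m : ℕ) : ℕ := if m ≤ a then a - m else m

theorem sig_inj (a : ℕ) : Function.Injective (sig a) := by
  intro m m' h
  unfold sig at h
  split_ifs at h <;> omega

/-- the reversed horizontal increments of the stationary model -/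
def YY (a b : ℕ) (x : (ℕ → ℕ) × (ℕ → ℕ) × (ℕ × ℕ → ℕ)) (m : ℕ) : ℕ :=
  GB x.1 x.2.1 x.2.2 (sig a m + 1) (b + 1) - GB x.1 x.2.1 x.2.2 (sig a m) (b + 1)

theorem mp_YY (h_HRO : T_HRO) {q α' : ℝ} (hq : 0 < q) (hα' : q < α') (hα'1 : α' < 1) (a b : ℕ) :
    MeasurePreserving (YY a b) (PB α' (q / α') q) (P1 α') := by
  have hα'0 : 0 < α' := by linarith
  have hβ0 : 0 < q / α' := div_pos hq hα'0
  have hβ1 : q / α' < 1 := (div_lt_one hα'0).2 hα'
  have e : α' * (q / α') = q := by field_simp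
  have h1 := h_HRO α' (q / α') hα'0 hα'1 hβ0 hβ1 (b + 1)
  rw [e] at h1
  have hm1 : Measurable (fun (x : (ℕ → ℕ) × (ℕ → ℕ) × (ℕ × ℕ → ℕ)) (k : ℕ) =>
      GB x.1 x.2.1 x.2.2 (k+1) (b+1) - GB x.1 x.2.1 x.2.2 k (b+1)) :=
    measurable_pi_lambda _ fun k => (measurable_GB (k+1) (b+1)).sub (measurable_GB k (b+1))
  have h2 : Measure.map (fun (x : ℕ → ℕ) (m : ℕ) => x (sig a m)) (P1 α') = P1 α' :=
    Measure.map_infinitePi_infinitePi_of_inj (P := fun _ : ℕ => geo α') (f := sig a) (sig_inj a)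
  have hm2 : Measurable (fun (x : ℕ → ℕ) (m : ℕ) => x (sig a m)) := by fun_prop
  exact (MeasurePreserving.mk hm2 h2).comp (MeasurePreserving.mk hm1 h1)

theorem GB_mono_left (N E : ℕ → ℕ) (W : ℕ × ℕ → ℕ) (i b : ℕ) :
    GB N E W i (b + 1) ≤ GB N E W (i + 1) (b + 1) := by
  simp only [GB]
  exact (le_max_left _ _).trans (Nat.le_add_right _ _)

/-- telescoping of the reversed increments -/
theorem sum_YY (N E : ℕ → ℕ) (W : ℕ × ℕ → ℕ) (a b k : ℕ) (hk : k ≤ a + 1) :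
    ∑ m ∈ Finset.range k, YY a b (N, E, W) m + GB N E W (a + 1 - k) (b + 1) =
      GB N E W (a + 1) (b + 1) := by
  induction k with
  | zero => simp
  | succ k ih =>
    rw [Finset.sum_range_succ]
    have h1 := ih (by omega)
    have e1 : sig a k = a - k := by
      unfold sig
      rw [if_pos (by omega)]
    have e2 : YY a b (N, E, W) k =
        GB N E W (a - k + 1) (b + 1) - GB N E W (a - k) (b + 1) := by
      unfold YY
      rw [e1]
    have h2 := GB_mono_left N E W (a - k) b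
    rw [e2]
    have e3 : a + 1 - k = a - k + 1 := by omega
    have e4 : a + 1 - (k + 1) = a - k := by omega
    rw [e3] at h1
    rw [e4]
    omega

/-- **INC** -/
theorem pf_INC (h_GEM : T_GEM) (h_SH1 : T_SH1) (h_RWK : T_RWK) (h_HRO : T_HRO) (h_REV : T_REV)
    (h_CMV : T_CMV) (h_EXI : T_EXI) : T_INC := by
  intro q α α' lam ρ y hq hq1 hα0 hα1 hqα' hα'1 hl hal hρ hprod a b k0
  have hα'0 : 0 < α' := by linarith
  -- reflection
  set A' : Set ((ℕ → ℕ) × (ℕ × ℕ → ℕ)) := {x | ∃ k < k0, k ≤ a ∧ (LB x.2 a b : ℝ) + y ≤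
        ((∑ i ∈ Finset.range (k+1), x.1 i + LB x.2 (a - k) b : ℕ) : ℝ)} with hA'
  have hmA' : MeasurableSet A' := by
    have : A' = ⋃ k ∈ (Finset.range k0).filter (fun k => k ≤ a),
        {x : (ℕ → ℕ) × (ℕ × ℕ → ℕ) | (LB x.2 a b : ℝ) + y ≤
          ((∑ i ∈ Finset.range (k+1), x.1 i + LB x.2 (a - k) b : ℕ) : ℝ)} := by
      ext x
      simp only [hA', Set.mem_iUnion, Finset.mem_filter, Finset.mem_range, exists_prop, and_assoc]
      rfl
    rw [this]
    refine MeasurableSet.biUnion (Finset.countable_toSet _) fun k _ => ?_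
    refine measurableSet_le ?_ ?_
    · exact (measurable_natcast ((measurable_LB a b).comp measurable_snd)).add_const y
    · refine measurable_natcast (Measurable.add ?_ ((measurable_LB (a - k) b).comp measurable_snd))
      exact Finset.measurable_sum _ fun i _ => by fun_prop
  have hrefl : MeasurePreserving (Prod.map id (rfl2 a b) :
      (ℕ → ℕ) × (ℕ × ℕ → ℕ) → (ℕ → ℕ) × (ℕ × ℕ → ℕ)) (PW α q) (PW α q) :=
    (MeasurePreserving.id (P1 α)).prod ⟨measurable_rfl2 a b, map_rfl2 a b q⟩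
  have hset : {x : (ℕ → ℕ) × (ℕ × ℕ → ℕ) | ∃ k < k0, k ≤ a ∧ (LB x.2 a b : ℝ) + y ≤
        ((∑ i ∈ Finset.range (k+1), x.1 i + LB (hs k x.2) (a - k) b : ℕ) : ℝ)} =
      (Prod.map id (rfl2 a b)) ⁻¹' A' := by
    ext x
    have h0 : LB x.2 a b = LB (rfl2 a b x.2) a b := by
      have := h_REV x.2 a b 0 (Nat.zero_le a)
      have e : hs 0 x.2 = x.2 := by funext p; simp [hs]
      rwa [e, Nat.sub_zero] at this
    constructor
    · rintro ⟨k, hk, hka, h⟩
      refine ⟨k, hk, hka, ?_⟩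
      show ((LB (rfl2 a b x.2) a b : ℕ) : ℝ) + y ≤
        ((∑ i ∈ Finset.range (k+1), x.1 i + LB (rfl2 a b x.2) (a - k) b : ℕ) : ℝ)
      rw [← h0, ← h_REV x.2 a b k hka]
      exact h
    · rintro ⟨k, hk, hka, h⟩
      refine ⟨k, hk, hka, ?_⟩
      have h' : ((LB (rfl2 a b x.2) a b : ℕ) : ℝ) + y ≤
        ((∑ i ∈ Finset.range (k+1), x.1 i + LB (rfl2 a b x.2) (a - k) b : ℕ) : ℝ) := h
      rw [← h0, ← h_REV x.2 a b k hka] at h'
      exact h'
  rw [hset, hrefl.measure_preimage hmA'.nullMeasurableSet]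
  -- adding the stationary boundary
  set μ : Measure ((ℕ → ℕ) × ((ℕ → ℕ) × (ℕ → ℕ) × (ℕ × ℕ → ℕ))) :=
    (P1 α).prod (PB α' (q / α') q) with hμ
  have hW : MeasurePreserving (fun x : (ℕ → ℕ) × (ℕ → ℕ) × (ℕ × ℕ → ℕ) => x.2.2)
      (PB α' (q / α') q) (P2 q) := by
    have m1 : MeasurePreserving (Prod.snd : (ℕ → ℕ) × (ℕ → ℕ) × (ℕ × ℕ → ℕ) → _)
      (PB α' (q / α') q) ((P1 (q / α')).prod (P2 q)) := measurePreserving_snd
    have m2 : MeasurePreserving (Prod.snd : (ℕ → ℕ) × (ℕ × ℕ → ℕ) → _)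
      ((P1 (q / α')).prod (P2 q)) (P2 q) := measurePreserving_snd
    exact m2.comp m1
  have hIW : MeasurePreserving (Prod.map id (fun x : (ℕ → ℕ) × (ℕ → ℕ) × (ℕ × ℕ → ℕ) => x.2.2))
      μ (PW α q) := (MeasurePreserving.id (P1 α)).prod hW
  rw [← hIW.measure_preimage hmA'.nullMeasurableSet]
  -- the walk
  have hIY : MeasurePreserving (Prod.map id (YY a b)) μ ((P1 α).prod (P1 α')) :=
    (MeasurePreserving.id (P1 α)).prod (mp_YY h_HRO hq hqα' hα'1 a b)
  have hsplit : MeasurePreserving (fun x : ℕ → ℕ => (x 0, fun n => x (n+1))) (P1 α)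
      ((geo α).prod (P1 α)) := ⟨by fun_prop, h_SH1 α⟩
  have hassoc : MeasurePreserving (MeasurableEquiv.prodAssoc :
      (ℕ × (ℕ → ℕ)) × (ℕ → ℕ) ≃ᵐ _) (((geo α).prod (P1 α)).prod (P1 α'))
      ((geo α).prod ((P1 α).prod (P1 α'))) := measurePreserving_prodAssoc _ _ _
  have hall := (hassoc.comp (hsplit.prod (MeasurePreserving.id (P1 α')))).comp hIY
  have hsub : (Prod.map id (fun x : (ℕ → ℕ) × (ℕ → ℕ) × (ℕ × ℕ → ℕ) => x.2.2)) ⁻¹' A' ⊆
      (Prod.snd ⁻¹' {x : (ℕ → ℕ) × (ℕ → ℕ) × (ℕ × ℕ → ℕ) | Gv x.2.1 x.2.2 0 a b <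
        Gh x.1 x.2.2 0 a b}) ∪
      {p : (ℕ → ℕ) × ((ℕ → ℕ) × (ℕ → ℕ) × (ℕ × ℕ → ℕ)) |
        (p.1 0, ((fun n => p.1 (n + 1)), YY a b p.2)) ∈ evC k0 y} := by
    rintro ⟨I, N, E, W⟩ ⟨k, hk, hka, h⟩
    by_cases hG : Gv E W 0 a b < Gh N W 0 a b
    · left
      exact hG
    · right
      refine ⟨k, hk.le, ?_⟩
      have h' : ((LB W a b : ℕ) : ℝ) + y ≤
        ((∑ i ∈ Finset.range (k+1), I i + LB W (a - k) b : ℕ) : ℝ) := h
      push Not at hG
      have e1 := h_EXI N E W a b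
      rw [max_eq_right hG] at e1
      have e2 := h_EXI N E W (a - k) b
      have e3 : Gv E W 0 (a - k) b ≤ GB N E W (a - k + 1) (b + 1) := by
        rw [e2]; exact le_max_right _ _
      have e4 := h_CMV E W (a - k) a b (Nat.sub_le _ _)
      have e5 := sum_YY N E W a b k (by omega)
      rw [show a + 1 - k = a - k + 1 by omega] at e5
      have e6 : ∑ m ∈ Finset.range k, YY a b (N, E, W) m + LB W (a - k) b ≤ LB W a b := by
        omega
      have e7 : ((∑ m ∈ Finset.range k, YY a b (N, E, W) m : ℕ) : ℝ) + (LB W (a - k) b : ℝ) ≤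
          (LB W a b : ℝ) := by exact_mod_cast e6
      rw [Finset.sum_range_succ'] at h'
      push_cast at h' e7
      show y - ((I 0 : ℕ) : ℝ) ≤ ∑ m ∈ Finset.range k, (((I (m + 1) : ℕ) : ℝ) -
        ((YY a b (N, E, W) m : ℕ) : ℝ))
      rw [Finset.sum_sub_distrib]
      linarith
  refine (measure_mono hsub).trans ((measure_union_le _ _).trans ?_)
  refine add_le_add ?_ ?_
  · have hsnd : MeasurePreserving (Prod.snd : _ → (ℕ → ℕ) × (ℕ → ℕ) × (ℕ × ℕ → ℕ)) μ
        (PB α' (q / α') q) := measurePreserving_snd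
    rw [hsnd.measure_preimage]
    refine (measurableSet_lt ?_ ?_).nullMeasurableSet
    · exact (measurable_Gv 0 a b).comp (f := fun x : (ℕ → ℕ) × (ℕ → ℕ) × (ℕ × ℕ → ℕ) =>
        (x.2.1, x.2.2)) (by fun_prop)
    · exact (measurable_Gh 0 a b).comp (f := fun x : (ℕ → ℕ) × (ℕ → ℕ) × (ℕ × ℕ → ℕ) =>
        (x.1, x.2.2)) (by fun_prop)
  · have h1 := hall.measure_preimage (measurableSet_evC k0 y).nullMeasurableSet
    have h2 := walk_bound h_GEM h_RWK (y := y) hα0 hα1 hα'0 hα'1 hl hal hρ hprod k0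
    rw [← h1] at h2
    exact h2

end Pool.Agent.H4.GL
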