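import Pool.Agent.H84.GL.Basic

/-!
gl_modules LTP (MP_57ddd5_pr): one-parameter form of the lower tail of the bulk model.
-/

open MeasureTheory ProbabilityTheory
open scoped ENNReal

namespace Pool.Agent.H4.GL.LTP

open Pool.Agent.H84.GL Pool.Agent.H99.NS

/-- the event of INC -/
def evI (y : ℝ) (a b k0 : ℕ) : Set ((ℕ → ℕ) × (ℕ × ℕ → ℕ)) :=
  {x | ∃ k < k0, k ≤ a ∧ (LB x.2 a b : ℝ) + y ≤
    ((∑ i ∈ Finset.range (k+1), x.1 i + LB (hs k x.2) (a - k) b : ℕ) : ℝ)}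

/-- the horizontal exit is early and the passage time is large -/
theorem exit_mem {I : ℕ → ℕ} {W : ℕ × ℕ → ℕ} {a b k0 : ℕ} {g y : ℝ}
    (hgb : g < (Gh I W 0 a b : ℝ)) (hlate : Gh I W k0 a b < Gh I W 0 a b)
    (hL : (LB W a b : ℝ) ≤ g - y) : (I, W) ∈ evI y a b k0 := by
  obtain ⟨k, -, hka, hk⟩ := Gh_attained I W 0 a b (Nat.zero_le a)
  have hkk0 : k < k0 := by
    by_contra hcon
    push Not at hcon
    have h1 : Gh I W 0 a b ≤ Gh I W k0 a b := by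
      rw [hk]
      unfold Gh
      exact Finset.le_sup (f := fun k => ∑ i ∈ Finset.range (k+1), I i + LB (hs k W) (a - k) b)
        (Finset.mem_Icc.2 ⟨hcon, hka⟩)
    omega
  refine ⟨k, hkk0, hka, ?_⟩
  show (LB W a b : ℝ) + y ≤ ((∑ i ∈ Finset.range (k+1), I i + LB (hs k W) (a - k) b : ℕ) : ℝ)
  rw [← hk]
  linarith

theorem AA_symm {q x y : ℝ} (hq : 0 < q) (hx : 0 < x) (hy : 0 < y) :
    q / AA q x y = AA q y x := by
  unfold AA
  have hsx : 0 < √x := Real.sqrt_pos.2 hx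
  have hsy : 0 < √y := Real.sqrt_pos.2 hy
  have hsq : 0 < √q := Real.sqrt_pos.2 hq
  rw [Real.sqrt_mul hq.le, Real.sqrt_mul hq.le]
  have e : q = √q ^ 2 := (Real.sq_sqrt hq.le).symm
  generalize √x = u at *
  generalize √y = v at *
  generalize √q = r at *
  subst e
  have h1 : 0 < r ^ 2 * u + r * v := by positivity
  have h2 : 0 < u + r * v := by positivity
  have h3 : 0 < v + r * u := by positivity
  field_simp
  ring

/-- the bound of INC in the form which is used here -/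
theorem inc_bound (h_INC : T_INC) {q : ℝ} (hq : 0 < q) (hq1 : q < 1)
    {c2 θN C3 : ℝ} {a b : ℕ}
    (hN : ∀ θ : ℝ, 0 < θ → θ ≤ θN →
      PB (AA q (a+1 : ℕ) (b+1 : ℕ) * Real.exp (-θ))
        (q / (AA q (a+1 : ℕ) (b+1 : ℕ) * Real.exp (-θ))) q
      {x | Gv x.2.1 x.2.2 0 a b < Gh x.1 x.2.2 0 a b} ≤
      3 * ex (-(c2 * (a + b + 2) * θ ^ 3)))
    {θ : ℝ} (hθ0 : 0 < θ) (hθN : θ ≤ θN)
    (ha : AA q (a+1 : ℕ) (b+1 : ℕ) * Real.exp (2 * θ) < 1)
    (hb : q < AA q (a+1 : ℕ) (b+1 : ℕ) * Real.exp (-θ))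
    (h3 : (1 - AA q (a+1 : ℕ) (b+1 : ℕ) * Real.exp θ) /
      (1 - AA q (a+1 : ℕ) (b+1 : ℕ) * Real.exp (2 * θ)) ≤ C3)
    (h4 : (1 - AA q (a+1 : ℕ) (b+1 : ℕ) * Real.exp θ) /
        (1 - AA q (a+1 : ℕ) (b+1 : ℕ) * Real.exp (2 * θ)) *
      ((1 - AA q (a+1 : ℕ) (b+1 : ℕ) * Real.exp (-θ)) /
        (1 - AA q (a+1 : ℕ) (b+1 : ℕ) * Real.exp (-(2 * θ)))) ≤ Real.exp (C3 * θ ^ 2))
    (hC3 : 0 < C3) (y : ℝ) (k0 : ℕ) (KK : ℝ) (hk0 : (k0 : ℝ) ≤ KK) :
    PW (AA q (a+1 : ℕ) (b+1 : ℕ) * Real.exp θ) q (evI y a b k0) ≤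
      3 * ex (-(c2 * (a + b + 2) * θ ^ 3)) +
        ENNReal.ofReal (C3 * Real.exp (-(θ * y) + C3 * θ ^ 2 * KK)) := by
  set al := AA q (a+1 : ℕ) (b+1 : ℕ) with hal
  have hE1 : 0 < Real.exp θ := Real.exp_pos _
  have e1 : al * Real.exp θ * Real.exp θ = al * Real.exp (2 * θ) := by
    rw [mul_assoc, ← Real.exp_add]
    congr 2
    ring
  have e2 : al * Real.exp (-θ) * Real.exp (-θ) = al * Real.exp (-(2 * θ)) := by
    rw [mul_assoc, ← Real.exp_add]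
    congr 2
    ring
  have hal0 : 0 < al := by
    by_contra hcon
    push Not at hcon
    have : al * Real.exp (-θ) ≤ 0 := mul_nonpos_of_nonpos_of_nonneg hcon (Real.exp_pos _).le
    linarith
  have hlt1 : Real.exp θ < Real.exp (2 * θ) := Real.exp_lt_exp.2 (by linarith)
  have hlt2 : Real.exp (-θ) < Real.exp (2 * θ) := Real.exp_lt_exp.2 (by linarith)
  have hα1 : al * Real.exp θ < 1 := by nlinarith
  have hα'1 : al * Real.exp (-θ) < 1 := by nlinarith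
  have hI := h_INC q (al * Real.exp θ) (al * Real.exp (-θ)) θ (Real.exp (C3 * θ ^ 2)) y hq hq1
    (mul_pos hal0 hE1) hα1 hb hα'1 hθ0.le (by rw [e1]; exact ha)
    (Real.one_le_exp (by positivity)) (by rw [e1, e2]; exact h4) a b k0
  rw [e1] at hI
  refine hI.trans (add_le_add (hN θ hθ0 hθN) ?_)
  apply ENNReal.ofReal_le_ofReal
  have hpow : Real.exp (C3 * θ ^ 2) ^ k0 ≤ Real.exp (C3 * θ ^ 2 * KK) := by
    rw [← Real.exp_nat_mul]
    apply Real.exp_le_exp.2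
    have := mul_le_mul_of_nonneg_left hk0 (show 0 ≤ C3 * θ ^ 2 by positivity)
    linarith
  rw [Real.exp_add]
  have hden : 0 < 1 - al * Real.exp (2 * θ) := by linarith
  have hnum : 0 ≤ (1 - al * Real.exp θ) / (1 - al * Real.exp (2 * θ)) :=
    div_nonneg (by linarith) hden.le
  calc Real.exp (-(θ * y)) * ((1 - al * Real.exp θ) / (1 - al * Real.exp (2 * θ))) *
        Real.exp (C3 * θ ^ 2) ^ k0
      ≤ Real.exp (-(θ * y)) * C3 * Real.exp (C3 * θ ^ 2 * KK) := by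
        refine mul_le_mul ?_ hpow (by positivity) (by positivity)
        exact mul_le_mul_of_nonneg_left h3 (Real.exp_pos _).le
    _ = C3 * (Real.exp (-(θ * y)) * Real.exp (C3 * θ ^ 2 * KK)) := by ring

/-- **LTP** -/
theorem pf_LTP (h_EXB : T_EXB) (h_NEC : T_NEC) (h_INC : T_INC) (h_EXI : T_EXI) (h_TRA : T_TRA)
    (h_CA2 : T_CA2) (h_CA5 : T_CA5) : T_LTP := by
  intro q hq hq1
  obtain ⟨K, c1, θE, hK, hc1, hθE, hEXB⟩ := h_EXB q hq hq1
  obtain ⟨c2, θN, hc2, hθN, hNEC⟩ := h_NEC q hq hq1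
  obtain ⟨_c0, _C0, θC, _, _, hθC, hθC1, hCA2⟩ := h_CA2 q hq hq1
  obtain ⟨C3, θ5, hC3, hθ5, hCA5⟩ := h_CA5 (Real.exp (-(4 * θC))) (Real.exp_pos _)
    (by rw [Real.exp_lt_one_iff]; linarith)
  set c : ℝ := min c1 (min c2 1) with hc
  have hc0 : 0 < c := lt_min hc1 (lt_min hc2 one_pos)
  have hcc1 : c ≤ c1 := min_le_left _ _
  have hcc2 : c ≤ c2 := (min_le_right _ _).trans (min_le_left _ _)
  have hcc3 : c ≤ 1 := (min_le_right _ _).trans (min_le_right _ _)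
  set θ₀ : ℝ := min θE (min θN (min θC (min θ5 (1 / (8 * (K + 1)))))) with hθ₀
  have hθ₀0 : 0 < θ₀ := by
    refine lt_min hθE (lt_min hθN (lt_min hθC (lt_min hθ5 (by positivity))))
  refine ⟨9 + 2 * C3 + Real.exp 8, c, C3 * (K + 1) + 1, θ₀, by positivity, hc0, by positivity,
    hθ₀0, ?_⟩
  intro a b hab hba θ hθ hθle
  have h1 : θ ≤ θE := hθle.trans (min_le_left _ _)
  have h2 : θ ≤ θN := hθle.trans ((min_le_right _ _).trans (min_le_left _ _))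
  have h3 : θ ≤ θC := hθle.trans ((min_le_right _ _).trans ((min_le_right _ _).trans
    (min_le_left _ _)))
  have h4 : θ ≤ θ5 := hθle.trans ((min_le_right _ _).trans ((min_le_right _ _).trans
    ((min_le_right _ _).trans (min_le_left _ _))))
  have h5 : θ ≤ 1 / (8 * (K + 1)) := hθle.trans ((min_le_right _ _).trans ((min_le_right _ _).trans
    ((min_le_right _ _).trans (min_le_right _ _))))
  have hθ1 : θ ≤ 1 := h3.trans hθC1
  set M0 : ℝ := (a : ℝ) + b + 2 with hM0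
  have ha0 : (0 : ℝ) ≤ a := Nat.cast_nonneg a
  have hb0 : (0 : ℝ) ≤ b := Nat.cast_nonneg b
  have hM0p : 0 < M0 := by linarith
  have habR : (a : ℝ) + 1 ≤ 3 * (b + 1) := by exact_mod_cast hab
  have hbaR : (b : ℝ) + 1 ≤ 3 * (a + 1) := by exact_mod_cast hba
  rcases lt_or_ge (M0 * θ) 8 with hsmall | hbig
  · -- trivial case
    refine prob_le_one.trans ?_
    rw [← ENNReal.ofReal_one]
    apply ENNReal.ofReal_le_ofReal
    have k1 : c * M0 * θ ^ 3 ≤ 8 := by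
      have k2 : M0 * θ ^ 3 ≤ 8 := by
        have : M0 * θ ^ 3 = (M0 * θ) * θ ^ 2 := by ring
        rw [this]
        have : θ ^ 2 ≤ 1 := by nlinarith
        nlinarith [mul_pos hM0p hθ]
      have k3 : 0 ≤ M0 * θ ^ 3 := by positivity
      nlinarith
    have k4 : Real.exp (-8) ≤ Real.exp (-(c * M0 * θ ^ 3)) := Real.exp_le_exp.2 (by linarith)
    have k5 : Real.exp 8 * Real.exp (-8) = 1 := by rw [← Real.exp_add]; norm_num
    have k6 : 0 < Real.exp 8 := Real.exp_pos 8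
    have k7 : 0 < Real.exp (-(c * M0 * θ ^ 3)) := Real.exp_pos _
    nlinarith
  · -- main case
    set x₁ : ℝ := ((a + 1 : ℕ) : ℝ) with hx₁
    set y₁ : ℝ := ((b + 1 : ℕ) : ℝ) with hy₁
    have hx₁0 : 0 < x₁ := by rw [hx₁]; positivity
    have hy₁0 : 0 < y₁ := by rw [hy₁]; positivity
    have hxy : x₁ ≤ 3 * y₁ := by rw [hx₁, hy₁]; push_cast; linarith
    have hyx : y₁ ≤ 3 * x₁ := by rw [hx₁, hy₁]; push_cast; linarith
    obtain ⟨hdom, -⟩ := hCA2 x₁ y₁ hx₁0 hy₁0 hxy hyx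
    obtain ⟨hdom', -⟩ := hCA2 y₁ x₁ hy₁0 hx₁0 hyx hxy
    have habs1 : |(4 * θC)| ≤ 4 * θC := by rw [abs_of_pos (by linarith)]
    have habs2 : |(-θ)| ≤ 4 * θC := by rw [abs_neg, abs_of_pos hθ]; linarith
    have hup : ∀ z w : ℝ, (∀ s : ℝ, |s| ≤ 4 * θC → q < AA q z w * Real.exp s ∧
        AA q z w * Real.exp s < 1) → 0 < AA q z w ∧ AA q z w ≤ Real.exp (-(4 * θC)) := by
      intro z w h
      have k1 := (h (4 * θC) habs1).2
      have k2 := (h 0 (by simp; linarith)).1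
      rw [Real.exp_zero, mul_one] at k2
      refine ⟨by linarith, ?_⟩
      rw [Real.exp_neg, ← one_div, le_div_iff₀ (Real.exp_pos _)]
      exact k1.le
    obtain ⟨hal0, hal1⟩ := hup x₁ y₁ hdom
    obtain ⟨hal0', hal1'⟩ := hup y₁ x₁ hdom'
    obtain ⟨g1, g2, g3⟩ := hCA5 (AA q x₁ y₁) θ hal0 hal1 hθ.le h4
    obtain ⟨g1', g2', g3'⟩ := hCA5 (AA q y₁ x₁) θ hal0' hal1' hθ.le h4
    have gq := (hdom (-θ) habs2).1
    have gq' := (hdom' (-θ) habs2).1
    -- the threshold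
    set k0 : ℕ := ⌈K * M0 * θ⌉₊ with hk0
    have hk0ge : K * M0 * θ ≤ k0 := Nat.le_ceil _
    have hk0lt : (k0 : ℝ) < K * M0 * θ + 1 := Nat.ceil_lt_add_one (by positivity)
    have hk0le : (k0 : ℝ) ≤ (K + 1) * M0 * θ := by nlinarith
    have hM08 : 8 ≤ M0 := by nlinarith
    have hk08 : (k0 : ℝ) ≤ M0 / 8 := by
      have : (K + 1) * θ ≤ 1 / 8 := by
        rw [le_div_iff₀ (by positivity)] at h5
        linarith
      nlinarith
    have hk0a : k0 ≤ a := by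
      have : (k0 : ℝ) ≤ a := by linarith
      exact_mod_cast this
    have hk0b : k0 ≤ b := by
      have : (k0 : ℝ) ≤ b := by linarith
      exact_mod_cast this
    set y : ℝ := (C3 * (K + 1) + 1) * M0 * θ ^ 2 with hy
    -- the three bounds
    have hsymm : q / (AA q x₁ y₁ * Real.exp (-θ)) = AA q y₁ x₁ * Real.exp θ := by
      rw [← AA_symm hq hx₁0 hy₁0, Real.exp_neg]
      have := hal0.ne'
      have := (Real.exp_pos θ).ne'
      field_simp
    have B1 := hEXB k0 a b (by exact_mod_cast hab) (by exact_mod_cast hba) hk0a hk0b θ hθ h1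
      (by rw [hM0] at hk0ge; exact hk0ge)
    have B2 := inc_bound h_INC hq hq1 (hNEC a b hab hba) hθ h2 g1 gq g2 g3 hC3 y k0
      ((K + 1) * M0 * θ) hk0le
    have B3 := inc_bound h_INC hq hq1 (hNEC b a hba hab) hθ h2 g1' gq' g2' g3' hC3 y k0
      ((K + 1) * M0 * θ) hk0le
    set ν := PB (AA q x₁ y₁ * Real.exp θ) (q / (AA q x₁ y₁ * Real.exp (-θ))) q with hν
    have hWmp : MeasurePreserving (fun x : (ℕ → ℕ) × (ℕ → ℕ) × (ℕ × ℕ → ℕ) => x.2.2)
        ν (P2 q) := by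
      have m1 : MeasurePreserving (Prod.snd : (ℕ → ℕ) × (ℕ → ℕ) × (ℕ × ℕ → ℕ) → _)
        ν ((P1 (q / (AA q x₁ y₁ * Real.exp (-θ)))).prod (P2 q)) := measurePreserving_snd
      have m2 : MeasurePreserving (Prod.snd : (ℕ → ℕ) × (ℕ × ℕ → ℕ) → _)
        ((P1 (q / (AA q x₁ y₁ * Real.exp (-θ)))).prod (P2 q)) (P2 q) := measurePreserving_snd
      exact m2.comp m1
    have hHmp : MeasurePreserving (fun x : (ℕ → ℕ) × (ℕ → ℕ) × (ℕ × ℕ → ℕ) => (x.1, x.2.2))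
        ν (PW (AA q x₁ y₁ * Real.exp θ) q) :=
      (MeasurePreserving.id (P1 (AA q x₁ y₁ * Real.exp θ))).prod
        (measurePreserving_snd (μ := P1 (q / (AA q x₁ y₁ * Real.exp (-θ)))) (ν := P2 q))
    have hVmp : MeasurePreserving (fun x : (ℕ → ℕ) × (ℕ → ℕ) × (ℕ × ℕ → ℕ) => (x.2.1, tr x.2.2))
        ν (PW (AA q y₁ x₁ * Real.exp θ) q) := by
      have m1 : MeasurePreserving (Prod.snd : (ℕ → ℕ) × (ℕ → ℕ) × (ℕ × ℕ → ℕ) → _)
        ν ((P1 (q / (AA q x₁ y₁ * Real.exp (-θ)))).prod (P2 q)) := measurePreserving_snd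
      rw [hsymm] at m1
      exact ((MeasurePreserving.id (P1 (AA q y₁ x₁ * Real.exp θ))).prod
        (MeasurePreserving.mk measurable_tr (map_tr q))).comp m1
    have hEm : MeasurableSet {W : ℕ × ℕ → ℕ | (LB W a b : ℝ) ≤ gg q x₁ y₁ - y} :=
      measurableSet_le ((measurable_nat fun n : ℕ => (n : ℝ)).comp (measurable_LB a b))
        measurable_const
    have hE2 : {W : ℕ × ℕ → ℕ | (LB W a b : ℝ) ≤ gg q x₁ y₁ -
        (C3 * (K + 1) + 1) * (↑a + ↑b + 2) * θ ^ 2} =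
        {W : ℕ × ℕ → ℕ | (LB W a b : ℝ) ≤ gg q x₁ y₁ - y} := rfl
    rw [hE2, ← hWmp.measure_preimage hEm.nullMeasurableSet]
    have hsub : (fun x : (ℕ → ℕ) × (ℕ → ℕ) × (ℕ × ℕ → ℕ) => x.2.2) ⁻¹'
        {W : ℕ × ℕ → ℕ | (LB W a b : ℝ) ≤ gg q x₁ y₁ - y} ⊆
        {x | (GB x.1 x.2.1 x.2.2 (a+1) (b+1) : ℝ) ≤ gg q x₁ y₁ ∨
          GB x.1 x.2.1 x.2.2 (a+1) (b+1) ≤ Gh x.1 x.2.2 k0 a b ∨
          GB x.1 x.2.1 x.2.2 (a+1) (b+1) ≤ Gv x.2.1 x.2.2 k0 a b} ∪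
        ((fun x : (ℕ → ℕ) × (ℕ → ℕ) × (ℕ × ℕ → ℕ) => (x.1, x.2.2)) ⁻¹' evI y a b k0 ∪
          (fun x : (ℕ → ℕ) × (ℕ → ℕ) × (ℕ × ℕ → ℕ) => (x.2.1, tr x.2.2)) ⁻¹' evI y b a k0) := by
      rintro ⟨I, J, W⟩ hW
      have hW' : (LB W a b : ℝ) ≤ gg q x₁ y₁ - y := hW
      by_cases hbad : (GB I J W (a+1) (b+1) : ℝ) ≤ gg q x₁ y₁ ∨
          GB I J W (a+1) (b+1) ≤ Gh I W k0 a b ∨ GB I J W (a+1) (b+1) ≤ Gv J W k0 a b
      · left
        exact hbad
      · right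
        push Not at hbad
        obtain ⟨b1, b2, b3⟩ := hbad
        rw [h_EXI] at b1 b2 b3
        rcases le_total (Gv J W 0 a b) (Gh I W 0 a b) with hle | hle
        · rw [max_eq_left hle] at b1 b2
          left
          exact exit_mem b1 b2 hW'
        · rw [max_eq_right hle] at b1 b3
          right
          have b1' : gg q x₁ y₁ < (Gh J (tr W) 0 b a : ℝ) := b1
          have b3' : Gh J (tr W) k0 b a < Gh J (tr W) 0 b a := b3
          refine exit_mem b1' b3' ?_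
          rw [← (h_TRA I J W a b).2]
          exact hW'
    refine (measure_mono hsub).trans ((measure_union_le _ _).trans ?_)
    refine (add_le_add B1 (measure_union_le _ _)).trans ?_
    have B2' : ν ((fun x : (ℕ → ℕ) × (ℕ → ℕ) × (ℕ × ℕ → ℕ) => (x.1, x.2.2)) ⁻¹' evI y a b k0) ≤
        3 * ex (-(c2 * (a + b + 2) * θ ^ 3)) +
        ENNReal.ofReal (C3 * Real.exp (-(θ * y) + C3 * θ ^ 2 * ((K + 1) * M0 * θ))) := by
      refine le_trans ?_ B2
      have := Measure.le_map_apply hHmp.measurable.aemeasurable (μ := ν) (evI y a b k0)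
      rwa [hHmp.map_eq] at this
    have B3' : ν ((fun x : (ℕ → ℕ) × (ℕ → ℕ) × (ℕ × ℕ → ℕ) => (x.2.1, tr x.2.2)) ⁻¹'
        evI y b a k0) ≤ 3 * ex (-(c2 * (b + a + 2) * θ ^ 3)) +
        ENNReal.ofReal (C3 * Real.exp (-(θ * y) + C3 * θ ^ 2 * ((K + 1) * M0 * θ))) := by
      refine le_trans ?_ B3
      have := Measure.le_map_apply hVmp.measurable.aemeasurable (μ := ν) (evI y b a k0)
      rwa [hVmp.map_eq] at this
    refine (add_le_add le_rfl (add_le_add B2' B3')).trans ?_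
    -- final estimate
    have hX : 0 ≤ M0 * θ ^ 3 := by positivity
    have f1 : Real.exp (-(c1 * M0 * θ ^ 3)) ≤ Real.exp (-(c * M0 * θ ^ 3)) :=
      Real.exp_le_exp.2 (by nlinarith)
    have f2 : Real.exp (-(c2 * M0 * θ ^ 3)) ≤ Real.exp (-(c * M0 * θ ^ 3)) :=
      Real.exp_le_exp.2 (by nlinarith)
    have f3 : Real.exp (-(θ * y) + C3 * θ ^ 2 * ((K + 1) * M0 * θ)) ≤
        Real.exp (-(c * M0 * θ ^ 3)) := by
      apply Real.exp_le_exp.2
      have : -(θ * y) + C3 * θ ^ 2 * ((K + 1) * M0 * θ) = -(M0 * θ ^ 3) := by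
        rw [hy]; ring
      rw [this]
      nlinarith
    have hcomm : (b : ℝ) + a + 2 = M0 := by rw [hM0]; ring
    rw [hcomm]
    unfold ex
    have e3 : (3 : ℝ≥0∞) = ENNReal.ofReal 3 := by norm_num
    rw [e3]
    have p1 := (Real.exp_pos (-(c1 * M0 * θ ^ 3))).le
    have p2 := (Real.exp_pos (-(c2 * M0 * θ ^ 3))).le
    have p3 := (Real.exp_pos (-(θ * y) + C3 * θ ^ 2 * ((K + 1) * M0 * θ))).le
    rw [← ENNReal.ofReal_mul (by norm_num), ← ENNReal.ofReal_mul (by norm_num),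
      ← ENNReal.ofReal_add (by positivity) (by positivity),
      ← ENNReal.ofReal_add (by positivity) (by positivity),
      ← ENNReal.ofReal_add (by positivity) (by positivity)]
    apply ENNReal.ofReal_le_ofReal
    have f4 := mul_le_mul_of_nonneg_left f3 hC3.le
    have p4 := (Real.exp_pos (-(c * M0 * θ ^ 3))).le
    have p5 := mul_nonneg (Real.exp_pos 8).le p4
    linarith

end Pool.Agent.H4.GL.LTP
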